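import Pool.Agent.REV.StmtsC

/-!
# Squad REV, row CYS: support function and volume increments of a cylinder
-/

set_option autoImplicit false

open MeasureTheory Module Set Filter
open scoped RealInnerProductSpace Pointwise Topology ENNReal

namespace Pool.Agent.REV.H46

open Pool.Agent.REV Pool.Agent.Helper55_PB Pool.Agent.Helper28_PB

theorem ballVol_zero' : ballVol 0 = 1 := by
  have h := (EuclideanSpace.basisFun (Fin 0) ℝ).volume_parallelepiped
  have e : parallelepiped (EuclideanSpace.basisFun (Fin 0) ℝ) =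
      Metric.closedBall (0 : EuclideanSpace ℝ (Fin 0)) 1 := by
    have h1 : (Metric.closedBall (0 : EuclideanSpace ℝ (Fin 0)) 1) = univ :=
      Subsingleton.eq_univ_of_nonempty ⟨0, Metric.mem_closedBall_self zero_le_one⟩
    have h2 : parallelepiped (EuclideanSpace.basisFun (Fin 0) ℝ) = univ := by
      apply Subsingleton.eq_univ_of_nonempty
      by_contra hne
      rw [not_nonempty_iff_eq_empty] at hne
      rw [hne, measure_empty] at h
      exact zero_ne_one h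
    rw [h1, h2]
  rw [ballVol, ← e, h]
  simp

theorem ballVol_one' : ballVol 1 = 2 := by
  rw [ballVol_eq one_pos]
  have h1 : Real.Gamma (((1 : ℕ) : ℝ) / 2 + 1) = 1 / 2 * √Real.pi := by
    rw [Nat.cast_one, Real.Gamma_add_one (by norm_num), Real.Gamma_one_half_eq]
  rw [h1]
  have h2 : 0 < √Real.pi := Real.sqrt_pos.mpr Real.pi_pos
  field_simp

section cyl

variable {E : Type} [NormedAddCommGroup E] [InnerProductSpace ℝ E]

theorem cyl_inner_perp {e : E} (he : ‖e‖ = 1) (y : E) : ⟪e, y - ⟪e, y⟫ • e⟫ = 0 := by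
  rw [inner_sub_right, inner_smul_right, real_inner_self_eq_norm_sq, he]
  ring

theorem cyl_inner {e : E} (he : ‖e‖ = 1) (y w : E) :
    ⟪y, w⟫ = ⟪e, y⟫ * ⟪e, w⟫ + ⟪y - ⟪e, y⟫ • e, w - ⟪e, w⟫ • e⟫ := by
  rw [inner_sub_left, inner_sub_right, inner_sub_right, inner_smul_left, inner_smul_left,
    inner_smul_right, inner_smul_right, real_inner_self_eq_norm_sq, he, real_inner_comm e y]
  simp
  ring

theorem support_cyl {e : E} {H R : ℝ} (he : ‖e‖ = 1) (hH : 0 < H) (hR : 0 < R)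
    (hK : IsCompact (cyl e H R)) (w : E) :
    supportFn (cyl e H R) w = H * |⟪e, w⟫| + R * ‖w - ⟪e, w⟫ • e‖ := by
  obtain ⟨s, hs1, hs2⟩ : ∃ s : ℝ, |s| = 1 ∧ s * ⟪e, w⟫ = |⟪e, w⟫| := by
    rcases le_total 0 ⟪e, w⟫ with h | h
    · exact ⟨1, abs_one, by rw [abs_of_nonneg h, one_mul]⟩
    · exact ⟨-1, by norm_num, by rw [abs_of_nonpos h]; ring⟩
  obtain ⟨v, hv0, hv1, hv2⟩ : ∃ v : E, ⟪e, v⟫ = 0 ∧ ‖v‖ ≤ 1 ∧
      ⟪v, w⟫ = ‖w - ⟪e, w⟫ • e‖ := by
    refine ⟨‖w - ⟪e, w⟫ • e‖⁻¹ • (w - ⟪e, w⟫ • e), ?_, ?_, ?_⟩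
    · rw [inner_smul_right, cyl_inner_perp he, mul_zero]
    · rw [norm_smul, norm_inv, norm_norm]
      by_cases h : ‖w - ⟪e, w⟫ • e‖ = 0
      · rw [h]
        simp
      · rw [inv_mul_cancel₀ h]
    · have h1 : ⟪w - ⟪e, w⟫ • e, w⟫ = ‖w - ⟪e, w⟫ • e‖ ^ 2 := by
        rw [cyl_inner he (w - ⟪e, w⟫ • e) w, cyl_inner_perp he, zero_mul, zero_smul, sub_zero,
          zero_add, real_inner_self_eq_norm_sq]
      rw [inner_smul_left, h1]
      simp only [conj_trivial]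
      by_cases h : ‖w - ⟪e, w⟫ • e‖ = 0
      · rw [h]
        simp
      · field_simp
  have hx1 : ⟪e, (s * H) • e + R • v⟫ = s * H := by
    rw [inner_add_right, inner_smul_right, inner_smul_right, hv0, real_inner_self_eq_norm_sq, he]
    ring
  have hx : (s * H) • e + R • v ∈ cyl e H R := by
    refine ⟨?_, ?_⟩
    · rw [hx1, abs_mul, hs1, one_mul, abs_of_pos hH]
    · rw [hx1, add_sub_cancel_left, norm_smul, Real.norm_eq_abs, abs_of_pos hR]
      nlinarith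
  have hval : ⟪(s * H) • e + R • v, w⟫ = H * |⟪e, w⟫| + R * ‖w - ⟪e, w⟫ • e‖ := by
    rw [inner_add_left, inner_smul_left, inner_smul_left, hv2]
    simp only [conj_trivial]
    rw [← hs2]
    ring
  rw [supportFn_eq hK hx, hval]
  rintro y ⟨hy1, hy2⟩
  rw [hval, cyl_inner he y w]
  have h1 : ⟪e, y⟫ * ⟪e, w⟫ ≤ H * |⟪e, w⟫| := by
    refine (le_abs_self _).trans ?_
    rw [abs_mul]
    exact mul_le_mul_of_nonneg_right hy1 (abs_nonneg _)
  have h2 : ⟪y - ⟪e, y⟫ • e, w - ⟪e, w⟫ • e⟫ ≤ R * ‖w - ⟪e, w⟫ • e‖ :=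
    (real_inner_le_norm _ _).trans (mul_le_mul_of_nonneg_right hy2 (norm_nonneg _))
  linarith

theorem proj_e {e : E} (he : ‖e‖ = 1) (y : E) :
    (((ℝ ∙ e).orthogonalProjectionOnto y : (ℝ ∙ e : Submodule ℝ E)) : E) = ⟪e, y⟫ • e := by
  have h := Submodule.starProjection_unit_singleton (𝕜 := ℝ) he y
  rwa [Submodule.starProjection_apply] at h

variable [FiniteDimensional ℝ E]

theorem proj_p {e : E} (he : ‖e‖ = 1) (y : E) :
    (((ℝ ∙ e)ᗮ.orthogonalProjectionOnto y : ((ℝ ∙ e)ᗮ : Submodule ℝ E)) : E) =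
      y - ⟪e, y⟫ • e := by
  have h := pr_add (ℝ ∙ e) y
  rw [proj_e he] at h
  rw [eq_sub_iff_add_eq, add_comm]
  exact h

omit [FiniteDimensional ℝ E] in
theorem norm_e {e : E} (he : ‖e‖ = 1) (y : E) :
    ‖(ℝ ∙ e).orthogonalProjectionOnto y‖ = |⟪e, y⟫| := by
  rw [Submodule.coe_norm, proj_e he, norm_smul, he, mul_one, Real.norm_eq_abs]

theorem norm_p {e : E} (he : ‖e‖ = 1) (y : E) :
    ‖(ℝ ∙ e)ᗮ.orthogonalProjectionOnto y‖ = ‖y - ⟪e, y⟫ • e‖ := by
  rw [Submodule.coe_norm, proj_p he]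

theorem cyl_eq {e : E} (he : ‖e‖ = 1) (H R : ℝ) :
    cyl e H R = prodSet (ℝ ∙ e) (Metric.closedBall 0 H) (Metric.closedBall 0 R) := by
  ext y
  show (|⟪e, y⟫| ≤ H ∧ ‖y - ⟪e, y⟫ • e‖ ≤ R) ↔
    ((ℝ ∙ e).orthogonalProjectionOnto y ∈ Metric.closedBall 0 H ∧
      (ℝ ∙ e)ᗮ.orthogonalProjectionOnto y ∈ Metric.closedBall 0 R)
  rw [mem_closedBall_zero_iff, mem_closedBall_zero_iff, norm_e he, norm_p he]

end cyl

/-- Row CYS. -/
theorem cys (SVB : SvbStmt) : CysStmt := by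
  intro E _ _ _ _ _ hn e H R he hH hR
  have hK : IsCompact (cyl e H R) := by
    rw [cyl_eq he]
    exact isCompact_prodSet _ (isCompact_closedBall _ _) (isCompact_closedBall _ _)
  refine ⟨hK, ?_, ?_, ?_, support_cyl he hH hR hK, fun w => ?_⟩
  · rw [cyl_eq he]
    exact convex_prodSet _ (convex_closedBall _ _) (convex_closedBall _ _)
  · rw [mem_interior]
    refine ⟨{y | |⟪e, y⟫| < H ∧ ‖y - ⟪e, y⟫ • e‖ < R}, fun y hy => ⟨hy.1.le, hy.2.le⟩, ?_, ?_⟩
    · have c1 : Continuous fun y : E => |⟪e, y⟫| := by fun_prop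
      have c2 : Continuous fun y : E => ‖y - ⟪e, y⟫ • e‖ := by fun_prop
      exact (isOpen_lt c1 continuous_const).inter (isOpen_lt c2 continuous_const)
    · show |⟪e, (0 : E)⟫| < H ∧ ‖(0 : E) - ⟪e, (0 : E)⟫ • e‖ < R
      rw [inner_zero_right, zero_smul, sub_zero, abs_zero, norm_zero]
      exact ⟨hH, hR⟩
  · rintro y ⟨h1, h2⟩
    refine ⟨?_, ?_⟩
    · rw [inner_neg_right, abs_neg]
      exact h1
    · have e1 : -y - ⟪e, -y⟫ • e = -(y - ⟪e, y⟫ • e) := by
        rw [inner_neg_right, neg_smul]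
        abel
      rw [e1, norm_neg]
      exact h2
  · have hd := finrank_perp he
    have he0 : e ≠ 0 := by
      rintro rfl
      simp at he
    have hd1 : finrank ℝ (ℝ ∙ e) = 1 := finrank_span_singleton he0
    have h := segVol_prodSet (ℝ ∙ e) (A := Metric.closedBall 0 H) (B := Metric.closedBall 0 R)
      (isCompact_closedBall _ _) (convex_closedBall _ _) (isCompact_closedBall _ _)
      (convex_closedBall _ _) ((ℝ ∙ e).orthogonalProjectionOnto w)
      ((ℝ ∙ e)ᗮ.orthogonalProjectionOnto w)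
    rw [pr_add, ← cyl_eq he, SVB (by rw [hd1]) H hH.le, SVB (by omega) R hR.le,
      volume_ball_eq _ hH.le, volume_ball_eq _ hR.le, hd1, norm_e he, norm_p he] at h
    have e1 : finrank ℝ ((ℝ ∙ e)ᗮ : Submodule ℝ E) = finrank ℝ E - 1 := by omega
    have e2 : finrank ℝ E - 1 - 1 = finrank ℝ E - 2 := by omega
    rw [e1, e2, Nat.sub_self, ballVol_zero', ballVol_one'] at h
    rw [h]
    ring

end Pool.Agent.REV.H46
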